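import Pool.Agent.H979.BK.Stm

/-! # Project BK (helper979), A2: exchangeability -/

open Filter Topology Finset Pool.Agent.H979.BK

namespace Pool.Agent.H972

theorem bkA2_mem {d n k : ℕ} (u : Ball d n → Fin d) (ρ : Equiv.Perm (Ball d n))
    (A : Finset (Ball d n)) :
    A ∈ sel k u ↔ (Equiv.finsetCongr ρ.symm) A ∈ sel k (u ∘ ρ) := by
  unfold sel
  simp only [mem_filter, mem_univ, true_and]
  refine forall_congr' fun i => ?_
  have h : ((Equiv.finsetCongr ρ.symm) A).filter (fun b => (u ∘ ρ) b = i) =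
      (A.filter fun b => u b = i).map ρ.symm.toEmbedding := by
    rw [Equiv.finsetCongr_apply, Finset.filter_map]
    congr 1
    refine Finset.filter_congr fun b _ => ?_
    simp
  rw [h, Finset.card_map]

theorem bkA2_move {d n : ℕ} (σ : Equiv.Perm (Fin d)) (u : Ball d n → Fin d)
    (ρ : Equiv.Perm (Ball d n)) (A : Finset (Ball d n)) :
    (move σ A u) ∘ ρ = move σ ((Equiv.finsetCongr ρ.symm) A) (u ∘ ρ) := by
  funext b
  have h : b ∈ (Equiv.finsetCongr ρ.symm) A ↔ ρ b ∈ A := by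
    rw [Equiv.finsetCongr_apply, Finset.mem_map_equiv, Equiv.symm_symm]
  simp only [move, Function.comp_apply, h]

theorem bkA2_Ts {d n k : ℕ} (σ : Equiv.Perm (Fin d)) (f : (Ball d n → Fin d) → ℝ)
    (u : Ball d n → Fin d) (ρ : Equiv.Perm (Ball d n)) :
    Ts k σ (fun u => f (u ∘ ρ)) u = Ts k σ f (u ∘ ρ) := by
  unfold Ts
  have h1 : ∑ A ∈ sel k u, f (move σ A u ∘ ρ) = ∑ A ∈ sel k (u ∘ ρ), f (move σ A (u ∘ ρ)) := by
    refine Finset.sum_equiv (Equiv.finsetCongr ρ.symm) (fun A => bkA2_mem u ρ A) fun A _ => ?_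
    rw [bkA2_move]
  have h2 : (sel k u).card = (sel k (u ∘ ρ)).card :=
    Finset.card_equiv (Equiv.finsetCongr ρ.symm) (fun A => bkA2_mem u ρ A)
  rw [h1, h2]

theorem bkA2_T {d n k : ℕ} (μ : Equiv.Perm (Fin d) → ℝ) (f : (Ball d n → Fin d) → ℝ)
    (u : Ball d n → Fin d) (ρ : Equiv.Perm (Ball d n)) :
    T μ k (fun u => f (u ∘ ρ)) u = T μ k f (u ∘ ρ) := by
  unfold T
  exact Finset.sum_congr rfl fun σ _ => by rw [bkA2_Ts]

theorem bkA2_iter {d n k : ℕ} (μ : Equiv.Perm (Fin d) → ℝ) (f : (Ball d n → Fin d) → ℝ)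
    (ρ : Equiv.Perm (Ball d n)) (m : ℕ) :
    (T μ k)^[m] (fun u => f (u ∘ ρ)) = fun u => (T μ k)^[m] f (u ∘ ρ) := by
  induction m with
  | zero => rfl
  | succ m ih =>
    rw [Function.iterate_succ_apply', ih, Function.iterate_succ_apply']
    funext u
    exact bkA2_T μ _ u ρ

/-- first part -/
theorem bkA2_perm {d n k : ℕ} (μ : Equiv.Perm (Fin d) → ℝ) (m : ℕ) (f : (Ball d n → Fin d) → ℝ)
    (ρ : Equiv.Perm (Ball d n)) (hρ : ∀ b, (ρ b).1 = b.1) :
    E μ k m (fun u => f (u ∘ ρ)) = E μ k m f := by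
  unfold E
  rw [bkA2_iter]
  have h : (Prod.fst : Ball d n → Fin d) ∘ ρ = Prod.fst := by
    funext b
    exact hρ b
  simp only [h]

/-- two colourings with the same counts at time `0` differ by a permutation of the balls which
preserves the urns -/
theorem bkA2_exists {d n : ℕ} (c c' : Ball d n → Fin d) (h : cnt c Prod.fst = cnt c' Prod.fst) :
    ∃ ρ : Equiv.Perm (Ball d n), (∀ b, (ρ b).1 = b.1) ∧ ∀ b, c (ρ b) = c' b := by
  have hcard : ∀ x : Fin d × Fin d, Fintype.card {b : Ball d n // (b.1, c' b) = x} =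
      Fintype.card {b : Ball d n // (b.1, c b) = x} := by
    rintro ⟨l, j⟩
    rw [Fintype.card_subtype, Fintype.card_subtype]
    have h1 := congrFun (congrFun h l) j
    unfold cnt at h1
    simp only [Prod.mk.injEq]
    exact h1.symm
  refine ⟨Equiv.ofFiberEquiv (f := fun b : Ball d n => (b.1, c' b))
    (g := fun b : Ball d n => (b.1, c b)) fun x => Fintype.equivOfCardEq (hcard x), ?_, ?_⟩
  · intro b
    have := Equiv.ofFiberEquiv_map (f := fun b : Ball d n => (b.1, c' b))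
      (g := fun b : Ball d n => (b.1, c b)) (fun x => Fintype.equivOfCardEq (hcard x)) b
    exact (Prod.mk.inj this).1
  · intro b
    have := Equiv.ofFiberEquiv_map (f := fun b : Ball d n => (b.1, c' b))
      (g := fun b : Ball d n => (b.1, c b)) (fun x => Fintype.equivOfCardEq (hcard x)) b
    exact (Prod.mk.inj this).2

theorem bkA2_cnt {d n : ℕ} (c u : Ball d n → Fin d) (ρ : Equiv.Perm (Ball d n)) :
    cnt (c ∘ ρ) u = cnt c (u ∘ ρ.symm) := by
  funext l j
  unfold cnt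
  refine Finset.card_equiv ρ fun b => ?_
  simp

/-- **A2.** Exchangeability. -/
theorem bk_a2 : S_A2 := by
  intro d n k μ m
  refine ⟨fun f ρ hρ => bkA2_perm μ m f ρ hρ, fun f c c' h => ?_⟩
  obtain ⟨ρ, h1, h2⟩ := bkA2_exists c c' h
  have hc : c' = c ∘ ρ := by
    funext b
    exact (h2 b).symm
  have h3 := bkA2_perm (k := k) μ m (fun u => f (cnt c u)) ρ.symm (fun b => by
    have := h1 (ρ.symm b)
    rw [Equiv.apply_symm_apply] at this
    exact this.symm)
  rw [← h3, hc]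
  simp only [bkA2_cnt]

end Pool.Agent.H972
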